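import Pool.Agent.R537.CM.Mem

/-!
# Constrained matrix invertibility over the reals is `∃ℝ`-complete

Sketch of the hardness proof.  Prescribed inner products: row vectors `X_i` and column vectors
`Y_j` with given supports in `ℝ^κ` such that `⟨X_i, Y_j⟩ = -1` for certain linked pairs.  Such a
problem becomes an instance of constrained matrix invertibility with one hub coordinate, which is
`*` in all the constrained rows of `A` and columns of `B`, and one private coordinate for each pair
`(i, j)` which is neither linked nor on the diagonal: these absorb the unprescribed inner products,
the diagonal forces the hub entries to be nonzero, and a factorization of the `P × P` identity
matrix by rectangular matrices extends to a square one, where the other rows and columns are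
unconstrained.  A system of constraints `x = 1`, `x + y = z`, `x y = z` over the reals becomes a
problem of prescribed inner products: each column vector is determined by unit rows and gives one
linear relation between the entries of the rows, and the product uses a column of support five,
where `y_a = -v` is forced by one row and multiplied by `u` in another row.
-/

namespace Pool.Agent.Results.MP_49d20d_lc.CmiComplete

open Pool.Agent.NPC Pool.Agent.NPC.ER Pool.Agent.NPC.R537CM

/-- Constrained matrix invertibility over the reals is `∃ℝ`-complete under polynomial-time
many-one reductions. -/
theorem result : ERComplete (lang CMI) := ⟨cmi_mem, cmi_hard⟩

end Pool.Agent.Results.MP_49d20d_lc.CmiComplete
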